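import Pool.Agent.Helper86.RT.StepR0
import Pool.Agent.Helper82.RT.D1
import Pool.Agent.Helper65.RT.Loc12
import Pool.Agent.Helper76.RT.D3F
import Pool.Agent.Helper22.RT.D3d

/-!
# Project RT, D4: one step of the iteration
-/

open MeasureTheory Real Set Filter Topology

set_option autoImplicit false

namespace Pool.Agent.Helper60.RT

open Pool.Agent.Helper22.AE
open Pool.Agent.Helper92.GC (dt tp Tq uu tt arc dd sqa m6)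
open Pool.Agent.Helper92.DT (m12 IsMul12)
open Pool.Agent.Helper60.LT (Fr Tf xf yf df vf fr ac co Cut BB PP)
open Pool.Agent.Helper60.QL (R3 nm pA xA sA TA Cone)

/-- D4: one step -/
theorem stepR {e : Fr} (he : 0 < df e) {ε lam Λ B C₀ : ℝ} {M : ℕ} (hl : 1 ≤ lam) (hΛ : 1 ≤ Λ) (hB : 1 ≤ B) (hM : 2 ≤ M) (hC₀ : 1 ≤ C₀) (hd : Dec12 ε lam M C₀) (n : ℕ) :
    ∃ C B' E : ℝ, ∃ m₁ : ℕ, 1 ≤ C ∧ B ≤ B' ∧ 1 ≤ E ∧ StepR e ε lam Λ M n B C B' E m₁ := by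
  obtain ⟨C₄, E₀, hC₄, hE₀, hbox⟩ := boxdec12 hC₀ hd n
  obtain ⟨C₃, w₀, hC₃, hw₀, hw₀1, hloc⟩ := loc12 he (by linarith : 1 ≤ 4 * B) hl
  obtain ⟨C₅, hC₅, hup⟩ := R_up he hB
  obtain ⟨C₆, hC₆, hlo⟩ := R_lo he (by linarith : 1 ≤ 4 * B) hΛ
  obtain ⟨Ca, ca, -, hca, hpa⟩ := OR_props he hB
  obtain ⟨Cb, cb, hCb, hcb, hpb⟩ := OR_props he (by linarith : 1 ≤ 2 * B)
  obtain ⟨Cc, cc, -, -, hpc⟩ := OR_props he (by linarith : 1 ≤ 4 * B)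
  exact stepR_of86 hl hB hM hC₄ hE₀ hbox hC₃ hw₀ hw₀1 hloc hC₅ hup hC₆ hlo hca hpa hCb hcb hpb hpc

end Pool.Agent.Helper60.RT
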