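import Pool.Agent.Helper86.RT.StepR0

/-!
# One step of the decoupling, abstract form: a family `Q S A`, `A ∈ ℝ²`, which is comparable with the linear family on the balls of radius `κ ρ`
-/

open MeasureTheory Real Set Filter Topology

set_option autoImplicit false

namespace Pool.Agent.Helper86.SA

open Pool.Agent.Helper22.AE
open Pool.Agent.Helper92.GC (dt tp Tq uu tt arc dd cub)
open Pool.Agent.Helper92.DT (m12 IsMul12 m12_nonneg)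
open Pool.Agent.Helper60.QL (Cone)
open Pool.Agent.Helper3.QL (avg_low avg_up)
open Pool.Agent.Helper60.RT (R2 lf2 ln2 Box86)

/-- Minkowski's inequality for `L^6` and finite sums, `lintegral` form -/
theorem mink6 {α ι : Type} [MeasurableSpace α] (μ : Measure α) (s : Finset ι) (g : ι → α → ENNReal)
    (hg : ∀ j ∈ s, Measurable (g j)) :
    (∫⁻ z, (∑ j ∈ s, (g j z) ^ (1 / 6 : ℝ)) ^ (6 : ℝ) ∂μ) ^ (1 / 6 : ℝ) ≤ ∑ j ∈ s, (∫⁻ z, g j z ∂μ) ^ (1 / 6 : ℝ) := by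
  classical
  induction s using Finset.induction_on with
  | empty =>
    simp
  | insert i s hi ih =>
    have hs : ∀ j ∈ s, Measurable (g j) := fun j hj => hg j (Finset.mem_insert_of_mem hj)
    have hi' : Measurable (g i) := hg i (Finset.mem_insert_self i s)
    have h1 := ENNReal.lintegral_Lp_add_le (μ := μ) (p := 6) (f := fun z => (g i z) ^ (1 / 6 : ℝ))
      (g := fun z => ∑ j ∈ s, (g j z) ^ (1 / 6 : ℝ)) (hi'.pow_const _).aemeasurable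
      (Finset.measurable_fun_sum s fun j hj => (hs j hj).pow_const _).aemeasurable (by norm_num)
    have h2 : ∀ z, ((g i z) ^ (1 / 6 : ℝ)) ^ (6 : ℝ) = g i z := by
      intro z
      rw [← ENNReal.rpow_mul]
      norm_num
    rw [Finset.sum_insert hi]
    simp only [Finset.sum_insert hi]
    refine (le_of_eq ?_).trans (h1.trans (add_le_add ?_ (ih hs)))
    · simp only [Pi.add_apply]
    · simp only [h2]
      exact le_rfl

/-- `m12` is a continuous function of the coefficients -/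
theorem m12_ct {X : Type} [TopologicalSpace X] (S : Finset (ℤ × ℤ)) (a : X → ℤ × ℤ → ℂ)
    (h : ∀ k ∈ S, Continuous (fun x => a x k)) : Continuous (fun x => m12 S (a x)) := by
  simp only [Pool.Agent.Helper92.DT.m12_eq]
  have hc : ∀ l, Continuous (fun x => cub S (a x) l) := by
    intro l
    unfold cub
    refine continuous_finsetSum _ fun k hk => ?_
    rw [Finset.mem_filter, Finset.mem_product, Finset.mem_product] at hk
    obtain ⟨⟨h2, h3, h4⟩, _⟩ := hk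
    exact ((h _ h2).mul (h _ h3)).mul (h _ h4)
  refine continuous_finsetSum _ fun l _ => Continuous.pow (Continuous.norm ?_) 2
  unfold Pool.Agent.Helper92.DT.six
  refine continuous_finsetSum _ fun k _ => ?_
  exact (hc _).mul (hc _)

/-- measurable coefficients give measurable moments -/
theorem m12_ms {X : Type} [MeasurableSpace X] (S : Finset (ℤ × ℤ)) (a : X → ℤ × ℤ → ℂ)
    (h : ∀ k, Measurable (fun x => a x k)) : Measurable (fun x => m12 S (a x)) := by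
  have h1 : Continuous (fun b : ℤ × ℤ → ℂ => m12 S b) := m12_ct S (fun b : ℤ × ℤ → ℂ => b) fun k _ => continuous_apply k
  exact h1.measurable.comp (measurable_pi_iff.2 h)

theorem lf2_ct (t₀ : ℝ) (S : Finset (ℤ × ℤ)) (a : ℤ × ℤ → ℂ) : Continuous (lf2 t₀ S a) := by
  unfold lf2
  refine m12_ct S _ fun k _ => continuous_const.mul (ee_cont.comp ?_)
  unfold ln2
  fun_prop

theorem lf2_nn (t₀ : ℝ) (S : Finset (ℤ × ℤ)) (a : ℤ × ℤ → ℂ) (R : R2) : 0 ≤ lf2 t₀ S a R := m12_nonneg _ _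

/-- the Bochner integral of the linear family as a lower integral around `z` -/
theorem lf2_int (t₀ : ℝ) (S : Finset (ℤ × ℤ)) (a : ℤ × ℤ → ℂ) (z : R2) (r : ℝ) :
    ENNReal.ofReal (∫ R in Metric.closedBall (0 : R2) r, lf2 t₀ S a R) = ∫⁻ A in Metric.closedBall z r, ENNReal.ofReal (lf2 t₀ S a (A - z)) := by
  rw [ofReal_integral_eq_lintegral_ofReal ((lf2_ct t₀ S a).continuousOn.integrableOn_compact (isCompact_closedBall _ _))
    (Eventually.of_forall fun R => lf2_nn t₀ S a R)]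
  rw [← lintegral_indicator measurableSet_closedBall, ← lintegral_indicator measurableSet_closedBall]
  have : (volume : Measure R2).IsAddLeftInvariant := by
    rw [Measure.volume_eq_prod]
    infer_instance
  rw [← lintegral_sub_right_eq_self _ z]
  refine lintegral_congr fun A => ?_
  by_cases h : A ∈ Metric.closedBall z r
  · have h' : A - z ∈ Metric.closedBall (0 : R2) r := by
      rw [mem_closedBall_zero_iff, ← dist_eq_norm]
      exact h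
    rw [indicator_of_mem h, indicator_of_mem h']
  · have h' : A - z ∉ Metric.closedBall (0 : R2) r := by
      rw [mem_closedBall_zero_iff, ← dist_eq_norm]
      exact h
    rw [indicator_of_notMem h, indicator_of_notMem h']

/-- balls of `ℝ²` are squares -/
theorem mem_ball (A z : R2) (Y : ℝ) : A ∈ Metric.closedBall z Y ↔ |A.1 - z.1| ≤ Y ∧ |A.2 - z.2| ≤ Y := by
  rw [Metric.mem_closedBall, Prod.dist_eq, Real.dist_eq, Real.dist_eq, max_le_iff]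

theorem vol_ball (z : R2) {Y : ℝ} (hY : 0 ≤ Y) : volume (Metric.closedBall z Y) = ENNReal.ofReal ((2 * Y) ^ 2) := by
  have h1 : Metric.closedBall z Y = Icc (z.1 - Y) (z.1 + Y) ×ˢ Icc (z.2 - Y) (z.2 + Y) := by
    ext A
    rw [mem_ball, mem_prod, mem_Icc, mem_Icc, abs_le, abs_le]
    constructor
    · rintro ⟨⟨h1, h2⟩, h3, h4⟩
      refine ⟨⟨by linarith, by linarith⟩, by linarith, by linarith⟩
    · rintro ⟨⟨h1, h2⟩, h3, h4⟩
      refine ⟨⟨by linarith, by linarith⟩, by linarith, by linarith⟩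
  have h : ∀ x : ℝ, x + Y - (x - Y) = 2 * Y := fun x => by ring
  rw [h1, Measure.volume_eq_prod, Measure.prod_prod, Real.volume_Icc, Real.volume_Icc, h, h, ← ENNReal.ofReal_mul (by linarith)]
  congr 1
  ring

theorem meas_ball {F : R2 → ENNReal} (hF : Measurable F) (r : ℝ) :
    Measurable (fun z : R2 => ∫⁻ A in Metric.closedBall z r, F A) := by
  have hR : MeasurableSet {p : R2 × R2 | dist p.2 p.1 ≤ r} :=
    measurableSet_le (measurable_snd.dist measurable_fst) measurable_const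
  have hm : Measurable (fun p : R2 × R2 => {p : R2 × R2 | dist p.2 p.1 ≤ r}.indicator (fun p => F p.2) p) :=
    (hF.comp measurable_snd).indicator hR
  have h1 : (fun z : R2 => ∫⁻ A in Metric.closedBall z r, F A) =
      fun z => ∫⁻ A, {p : R2 × R2 | dist p.2 p.1 ≤ r}.indicator (fun p => F p.2) (z, A) := by
    funext z
    rw [← lintegral_indicator measurableSet_closedBall]
    refine lintegral_congr fun A => ?_
    by_cases h : dist A z ≤ r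
    · rw [indicator_of_mem (by exact h), indicator_of_mem (by exact h)]
    · rw [indicator_of_notMem (by exact h), indicator_of_notMem (by exact h)]
  rw [h1]
  exact hm.lintegral_prod_right'

/-- the slopes of a sector -/
theorem arc_slope {S : Finset (ℤ × ℤ)} {N j : ℕ} (hN : 0 < N) {k : ℤ × ℤ} (hk : k ∈ arc 0 S N j) (h2 : |tt 0 k| ≤ 2) :
    |tt 0 k - (12 * ((j : ℝ) + 1 / 2) / N - 6)| ≤ 6 / N := by
  have hN0 : (0 : ℝ) < N := by exact_mod_cast hN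
  unfold arc at hk
  have h := (Finset.mem_filter.1 hk).2
  have hpos : 0 ≤ (N : ℝ) * ((tt 0 k + 6) / 12) := by
    have := (abs_le.1 h2).1
    refine mul_nonneg hN0.le ?_
    linarith
  have h1 := Nat.floor_le hpos
  have h3 := Nat.lt_floor_add_one ((N : ℝ) * ((tt 0 k + 6) / 12))
  rw [h] at h1 h3
  have e1 : (j : ℝ) * 12 / N ≤ tt 0 k + 6 := by
    rw [div_le_iff₀ hN0]
    linarith
  have e2 : tt 0 k + 6 ≤ ((j : ℝ) + 1) * 12 / N := by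
    rw [le_div_iff₀ hN0]
    linarith
  have e3 : 12 * ((j : ℝ) + 1 / 2) / N = (j : ℝ) * 12 / N + 6 / N := by ring
  have e4 : ((j : ℝ) + 1) * 12 / N = (j : ℝ) * 12 / N + 6 / N + 6 / N := by ring
  rw [abs_le]
  constructor
  · linarith
  · linarith

/-- the decoupling of the integral over a ball -/
theorem win {ε lam C₃ C₄ E : ℝ} {M n : ℕ} (hC₃ : 1 ≤ C₃) (hC₄ : 1 ≤ C₄) (hE : 1 ≤ E) (hbox : Box86 ε lam M n C₄ E)
    (m : ℕ) (H r κ t₀ : ℝ) (z : R2) (S : Finset (ℤ × ℤ)) (Q : Finset (ℤ × ℤ) → R2 → ℝ) (a : ℤ × ℤ → ℂ) (hH : 0 < H) (hr : 0 < r) (hκ : 4 ≤ κ)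
    (ht₀ : |t₀| ≤ 3) (ha1 : ∀ k, ‖a k‖ ≤ 1) (hS : ∀ k ∈ S, H / lam ≤ uu 0 k ∧ uu 0 k ≤ lam * H ∧ |tt 0 k - t₀| ≤ 1)
    (hcmp : ∀ S' ⊆ S, ∀ A ∈ Metric.closedBall z (κ * r), Q S' A ≤ C₃ * lf2 t₀ S' a (A - z) ∧ lf2 t₀ S' a (A - z) ≤ C₃ * Q S' A)
    (hM3 : C₃ * C₄ * (M : ℝ) ^ (3 * m) ≤ H * r) :
      (∫⁻ A in Metric.closedBall z r, ENNReal.ofReal (Q S A)) ^ (1 / 6 : ℝ) ≤ ENNReal.ofReal (C₃ * C₄ * (M : ℝ) ^ (ε * (m : ℝ))) *
        ∑ j ∈ Finset.range (M ^ m), ((∫⁻ A in Metric.closedBall z (κ * r), ENNReal.ofReal (Q (arc 0 S (M ^ m) j) A)) +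
          ENNReal.ofReal (E * r ^ 2 * (S.card : ℝ) ^ 12 * κ⁻¹ ^ n)) ^ (1 / 6 : ℝ) := by
  have hκ0 : 0 < κ := by linarith
  have hC₃0 : 0 < C₃ := by linarith
  have hC₄0 : 0 < C₄ := by linarith
  have hrκ : r ≤ κ * r := le_mul_of_one_le_left hr.le (by linarith)
  have hlin : ∀ (S' : Finset (ℤ × ℤ)) (ρ : ℝ), 0 ≤ ∫ R in Metric.closedBall (0 : R2) ρ, lf2 t₀ S' a R :=
    fun S' ρ => integral_nonneg fun R => lf2_nn t₀ S' a R
  obtain ⟨tl, htl⟩ : ∃ tl : ℝ, tl = E * r ^ 2 * (S.card : ℝ) ^ 12 * κ⁻¹ ^ n := ⟨_, rfl⟩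
  have htl0 : 0 ≤ tl := by rw [htl]; positivity
  -- the three steps
  have s1 : ∫⁻ A in Metric.closedBall z r, ENNReal.ofReal (Q S A) ≤ ENNReal.ofReal (C₃ * ∫ R in Metric.closedBall (0 : R2) r, lf2 t₀ S a R) := by
    rw [ENNReal.ofReal_mul hC₃0.le, lf2_int t₀ S a z r, ← lintegral_const_mul' _ _ ENNReal.ofReal_ne_top]
    refine setLIntegral_mono' measurableSet_closedBall fun A hA => ?_
    rw [← ENNReal.ofReal_mul hC₃0.le]
    exact ENNReal.ofReal_le_ofReal (hcmp S (Finset.Subset.refl S) A (Metric.closedBall_subset_closedBall hrκ hA)).1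
  have s2 := hbox m H r κ t₀ 0 a S ha1 ht₀ hH hr hκ hS
    (le_trans (by
      have : 0 ≤ C₄ * (M : ℝ) ^ (3 * m) := by positivity
      calc C₄ * (M : ℝ) ^ (3 * m) ≤ C₃ * (C₄ * (M : ℝ) ^ (3 * m)) := le_mul_of_one_le_left this hC₃
        _ = C₃ * C₄ * (M : ℝ) ^ (3 * m) := by ring) hM3)
  rw [← htl] at s2
  have s3 : ∀ j, ENNReal.ofReal (∫ R in Metric.closedBall (0 : R2) (κ * r), lf2 t₀ (arc 0 S (M ^ m) j) a R) ≤
      ENNReal.ofReal C₃ * ∫⁻ A in Metric.closedBall z (κ * r), ENNReal.ofReal (Q (arc 0 S (M ^ m) j) A) := by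
    intro j
    rw [lf2_int t₀ _ a z (κ * r), ← lintegral_const_mul' _ _ ENNReal.ofReal_ne_top]
    refine setLIntegral_mono' measurableSet_closedBall fun A hA => ?_
    rw [← ENNReal.ofReal_mul hC₃0.le]
    refine ENNReal.ofReal_le_ofReal (hcmp _ ?_ A hA).2
    unfold arc
    exact Finset.filter_subset _ _
  have hC10 : C₃ ^ (1 / 6 : ℝ) * C₃ ^ (1 / 6 : ℝ) ≤ C₃ := by
    rw [← rpow_add hC₃0]
    calc C₃ ^ (1 / 6 + 1 / 6 : ℝ) ≤ C₃ ^ (1 : ℝ) := rpow_le_rpow_of_exponent_le hC₃ (by norm_num)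
      _ = C₃ := rpow_one _
  have hterm : ∀ j, ENNReal.ofReal (((∫ R in Metric.closedBall (0 : R2) (κ * r), lf2 t₀ (arc 0 S (M ^ m) j) a R) + tl) ^ (1 / 6 : ℝ)) ≤
      ENNReal.ofReal (C₃ ^ (1 / 6 : ℝ)) * ((∫⁻ A in Metric.closedBall z (κ * r), ENNReal.ofReal (Q (arc 0 S (M ^ m) j) A)) +
          ENNReal.ofReal tl) ^ (1 / 6 : ℝ) := by
    intro j
    rw [← ENNReal.ofReal_rpow_of_nonneg (add_nonneg (hlin _ _) htl0) (by norm_num), ← ENNReal.ofReal_rpow_of_nonneg hC₃0.le (by norm_num),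
      ← ENNReal.mul_rpow_of_nonneg _ _ (by norm_num : (0 : ℝ) ≤ 1 / 6)]
    refine ENNReal.rpow_le_rpow ?_ (by norm_num)
    rw [ENNReal.ofReal_add (hlin _ _) htl0, mul_add]
    refine add_le_add (s3 j) ?_
    have h1 : (1 : ENNReal) ≤ ENNReal.ofReal C₃ := by
      rw [← ENNReal.ofReal_one]
      exact ENNReal.ofReal_le_ofReal hC₃
    exact le_mul_of_one_le_left' h1
  have hsum0 : ∀ j, 0 ≤ ((∫ R in Metric.closedBall (0 : R2) (κ * r), lf2 t₀ (arc 0 S (M ^ m) j) a R) + tl) ^ (1 / 6 : ℝ) :=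
    fun j => rpow_nonneg (add_nonneg (hlin _ _) htl0) _
  have hMm : 0 ≤ C₄ * (M : ℝ) ^ (ε * (m : ℝ)) := by positivity
  calc (∫⁻ A in Metric.closedBall z r, ENNReal.ofReal (Q S A)) ^ (1 / 6 : ℝ)
      ≤ (ENNReal.ofReal (C₃ * ∫ R in Metric.closedBall (0 : R2) r, lf2 t₀ S a R)) ^ (1 / 6 : ℝ) := ENNReal.rpow_le_rpow s1 (by norm_num)
    _ = ENNReal.ofReal (C₃ ^ (1 / 6 : ℝ) * (∫ R in Metric.closedBall (0 : R2) r, lf2 t₀ S a R) ^ (1 / 6 : ℝ)) := by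
        rw [ENNReal.ofReal_rpow_of_nonneg (mul_nonneg hC₃0.le (hlin _ _)) (by norm_num), mul_rpow hC₃0.le (hlin _ _)]
    _ ≤ ENNReal.ofReal (C₃ ^ (1 / 6 : ℝ) * (C₄ * (M : ℝ) ^ (ε * (m : ℝ)) *
          ∑ j ∈ Finset.range (M ^ m), ((∫ R in Metric.closedBall (0 : R2) (κ * r), lf2 t₀ (arc 0 S (M ^ m) j) a R) + tl) ^ (1 / 6 : ℝ))) :=
        ENNReal.ofReal_le_ofReal (mul_le_mul_of_nonneg_left s2 (by positivity))
    _ = ENNReal.ofReal (C₃ ^ (1 / 6 : ℝ) * (C₄ * (M : ℝ) ^ (ε * (m : ℝ)))) *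
          ∑ j ∈ Finset.range (M ^ m), ENNReal.ofReal (((∫ R in Metric.closedBall (0 : R2) (κ * r), lf2 t₀ (arc 0 S (M ^ m) j) a R) + tl) ^ (1 / 6 : ℝ)) := by
        rw [← mul_assoc, ENNReal.ofReal_mul (by positivity), ENNReal.ofReal_sum_of_nonneg fun j _ => hsum0 j]
    _ ≤ ENNReal.ofReal (C₃ ^ (1 / 6 : ℝ) * (C₄ * (M : ℝ) ^ (ε * (m : ℝ)))) *
          ∑ j ∈ Finset.range (M ^ m), ENNReal.ofReal (C₃ ^ (1 / 6 : ℝ)) * ((∫⁻ A in Metric.closedBall z (κ * r), ENNReal.ofReal (Q (arc 0 S (M ^ m) j) A)) +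
          ENNReal.ofReal tl) ^ (1 / 6 : ℝ) := by
        refine mul_le_mul' le_rfl (Finset.sum_le_sum fun j _ => hterm j)
    _ = ENNReal.ofReal ((C₃ ^ (1 / 6 : ℝ) * C₃ ^ (1 / 6 : ℝ)) * (C₄ * (M : ℝ) ^ (ε * (m : ℝ)))) *
          ∑ j ∈ Finset.range (M ^ m), ((∫⁻ A in Metric.closedBall z (κ * r), ENNReal.ofReal (Q (arc 0 S (M ^ m) j) A)) +
          ENNReal.ofReal tl) ^ (1 / 6 : ℝ) := by
        rw [← Finset.mul_sum, ← mul_assoc, ← ENNReal.ofReal_mul (by positivity)]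
        congr 2
        ring
    _ ≤ _ := by
        refine mul_le_mul' (ENNReal.ofReal_le_ofReal ?_) (by rw [← htl])
        calc (C₃ ^ (1 / 6 : ℝ) * C₃ ^ (1 / 6 : ℝ)) * (C₄ * (M : ℝ) ^ (ε * (m : ℝ))) ≤ C₃ * (C₄ * (M : ℝ) ^ (ε * (m : ℝ))) :=
              mul_le_mul_of_nonneg_right hC10 hMm
          _ = C₃ * C₄ * (M : ℝ) ^ (ε * (m : ℝ)) := by ring

/-- one step, for regions `O₁ ⊆ O₂ ⊆ O₃` -/
theorem step {ε lam C₃ C₄ E : ℝ} {M n : ℕ} (hC₃ : 1 ≤ C₃) (hC₄ : 1 ≤ C₄) (hE : 1 ≤ E) (hbox : Box86 ε lam M n C₄ E) (hM : 2 ≤ M)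
    (m : ℕ) (H ρ κ t₀ V : ℝ) (S : Finset (ℤ × ℤ)) (Q : Finset (ℤ × ℤ) → R2 → ℝ) (a : R2 → ℤ × ℤ → ℂ) (O₁ O₂ O₃ : Set R2)
    (hH : 0 < H) (hρ : 0 < ρ) (hκ : 4 ≤ κ) (hV : 0 ≤ V)
    (ht₀ : |t₀| ≤ 3) (ha1 : ∀ z k, ‖a z k‖ ≤ 1) (hS : ∀ k ∈ S, H / lam ≤ uu 0 k ∧ uu 0 k ≤ lam * H ∧ |tt 0 k - t₀| ≤ 1)
    (hQm : ∀ S', Measurable (Q S')) (m1 : MeasurableSet O₁) (m2 : MeasurableSet O₂) (m3 : MeasurableSet O₃)
    (n1 : ∀ A ∈ O₁, Metric.closedBall A ρ ⊆ O₂) (n2 : ∀ z ∈ O₂, Metric.closedBall z (κ * ρ) ⊆ O₃) (hv : volume O₂ ≤ ENNReal.ofReal V)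
    (hcmp : ∀ z ∈ O₂, ∀ S' ⊆ S, ∀ A ∈ Metric.closedBall z (κ * ρ), Q S' A ≤ C₃ * lf2 t₀ S' (a z) (A - z) ∧ lf2 t₀ S' (a z) (A - z) ≤ C₃ * Q S' A)
    (hM3 : C₃ * C₄ * (M : ℝ) ^ (3 * m) ≤ H * ρ) :
      (∫⁻ A in O₁, ENNReal.ofReal (Q S A)) ^ (1 / 6 : ℝ) ≤ ENNReal.ofReal (C₃ * C₄ * (M : ℝ) ^ (ε * (m : ℝ)) * κ) *
        ∑ j ∈ Finset.range (M ^ m), ((∫⁻ A in O₃, ENNReal.ofReal (Q (arc 0 S (M ^ m) j) A)) +
          ENNReal.ofReal (E * V * (S.card : ℝ) ^ 12 * κ⁻¹ ^ n)) ^ (1 / 6 : ℝ) := by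
  have hM0 : (0 : ℝ) < M := by
    have : 0 < M := by omega
    exact_mod_cast this
  have hκ0 : 0 < κ := by linarith
  have hκ1 : 1 ≤ κ := by linarith
  have hE0 : 0 < E := by linarith
  obtain ⟨F, hF⟩ : ∃ F : Finset (ℤ × ℤ) → R2 → ENNReal, F = fun S'' A => ENNReal.ofReal (Q S'' A) := ⟨_, rfl⟩
  have hFm : ∀ S'', Measurable (F S'') := by
    intro S''
    rw [hF]
    exact (hQm S'').ennreal_ofReal
  obtain ⟨Sj, hSj⟩ : ∃ Sj : ℕ → Finset (ℤ × ℤ), Sj = fun j => arc 0 S (M ^ m) j := ⟨_, rfl⟩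
  obtain ⟨q, hq⟩ : ∃ q : ℝ, q = (S.card : ℝ) ^ 12 := ⟨_, rfl⟩
  have hq0 : 0 ≤ q := by rw [hq]; exact pow_nonneg (Nat.cast_nonneg _) 12
  obtain ⟨tl, htl⟩ : ∃ tl : ℝ, tl = E * ρ ^ 2 * q * κ⁻¹ ^ n := ⟨_, rfl⟩
  have htl0 : 0 ≤ tl := by rw [htl]; positivity
  rw [← hq]
  have hVb : ∀ (Y : ℝ), 0 ≤ Y → ∀ z : R2, volume (Metric.closedBall z Y) = ENNReal.ofReal ((2 * Y) ^ 2) :=
    fun Y hY z => vol_ball z hY
  -- averaging
  have a1 : ENNReal.ofReal ((2 * ρ) ^ 2) * (∫⁻ A in O₁, F S A) ≤ ∫⁻ z in O₂, ∫⁻ A in Metric.closedBall z ρ, F S A :=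
    avg_low volume (hFm S) m1 (hVb ρ hρ.le) n1
  have a2 : ∀ j : ℕ, ∫⁻ z in O₂, ∫⁻ A in Metric.closedBall z (κ * ρ), F (Sj j) A ≤
      ENNReal.ofReal ((2 * (κ * ρ)) ^ 2) * ∫⁻ A in O₃, F (Sj j) A :=
    fun j => avg_up volume (hFm _) m3 (hVb (κ * ρ) (by positivity)) n2
  -- the window
  have hwz : ∀ z ∈ O₂, (∫⁻ A in Metric.closedBall z ρ, F S A) ^ (1 / 6 : ℝ) ≤ ENNReal.ofReal (C₃ * C₄ * (M : ℝ) ^ (ε * (m : ℝ))) *
      ∑ j ∈ Finset.range (M ^ m), ((∫⁻ A in Metric.closedBall z (κ * ρ), F (Sj j) A) + ENNReal.ofReal tl) ^ (1 / 6 : ℝ) := by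
    intro z hz
    have := win hC₃ hC₄ hE hbox m H ρ κ t₀ z S Q (a z) hH hρ hκ ht₀ (ha1 z) hS (hcmp z hz) hM3
    rw [hF, hSj, htl, hq]
    exact this
  obtain ⟨K', hK'⟩ : ∃ K' : ENNReal, K' = ENNReal.ofReal (C₃ * C₄ * (M : ℝ) ^ (ε * (m : ℝ))) := ⟨_, rfl⟩
  rw [← hK'] at hwz
  obtain ⟨g, hg⟩ : ∃ g : ℕ → R2 → ENNReal, g = fun j z => (∫⁻ A in Metric.closedBall z (κ * ρ), F (Sj j) A) + ENNReal.ofReal tl := ⟨_, rfl⟩
  have hgm : ∀ j, Measurable (g j) := by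
    intro j
    rw [hg]
    exact (meas_ball (hFm (Sj j)) (κ * ρ)).add_const _
  have hmink : (∫⁻ z in O₂, ∫⁻ A in Metric.closedBall z ρ, F S A) ^ (1 / 6 : ℝ) ≤
      K' * ∑ j ∈ Finset.range (M ^ m), (∫⁻ z in O₂, g j z) ^ (1 / 6 : ℝ) := by
    have h3 : Measurable (fun z : R2 => (∑ j ∈ Finset.range (M ^ m), (g j z) ^ (1 / 6 : ℝ)) ^ (6 : ℝ)) :=
      (Finset.measurable_fun_sum _ fun j _ => (hgm j).pow_const _).pow_const _
    have h1 : ∫⁻ z in O₂, ∫⁻ A in Metric.closedBall z ρ, F S A ≤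
        ∫⁻ z in O₂, K' ^ (6 : ℝ) * (∑ j ∈ Finset.range (M ^ m), (g j z) ^ (1 / 6 : ℝ)) ^ (6 : ℝ) := by
      refine setLIntegral_mono' m2 fun z hz => ?_
      rw [← ENNReal.mul_rpow_of_nonneg _ _ (by norm_num : (0 : ℝ) ≤ 6)]
      have h2 := ENNReal.rpow_le_rpow (hwz z hz) (by norm_num : (0 : ℝ) ≤ 6)
      rw [← ENNReal.rpow_mul] at h2
      norm_num at h2
      rw [hg]
      norm_num
      exact h2
    rw [lintegral_const_mul _ h3] at h1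
    refine (ENNReal.rpow_le_rpow h1 (by norm_num : (0 : ℝ) ≤ 1 / 6)).trans ?_
    rw [ENNReal.mul_rpow_of_nonneg _ _ (by norm_num : (0 : ℝ) ≤ 1 / 6), ← ENNReal.rpow_mul]
    have e : (6 : ℝ) * (1 / 6) = 1 := by norm_num
    rw [e, ENNReal.rpow_one]
    exact mul_le_mul' le_rfl (mink6 _ _ g fun j _ => hgm j)
  -- the integrals of the g j
  have hgi : ∀ j, ∫⁻ z in O₂, g j z ≤ ENNReal.ofReal ((2 * (κ * ρ)) ^ 2) * (∫⁻ A in O₃, F (Sj j) A) + ENNReal.ofReal (tl * V) := by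
    intro j
    rw [hg]
    change ∫⁻ z in O₂, ((∫⁻ A in Metric.closedBall z (κ * ρ), F (Sj j) A) + ENNReal.ofReal tl) ≤ _
    rw [lintegral_add_right _ measurable_const, lintegral_const, Measure.restrict_apply MeasurableSet.univ, univ_inter]
    refine add_le_add (a2 j) ?_
    rw [ENNReal.ofReal_mul htl0]
    exact mul_le_mul' le_rfl hv
  -- the constants
  obtain ⟨c₂, hc₂⟩ : ∃ c₂ : ℝ, c₂ = 1 / (2 * ρ) ^ 2 := ⟨_, rfl⟩
  have hc₂0 : 0 < c₂ := by rw [hc₂]; positivity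
  have b1 : ∫⁻ A in O₁, F S A ≤ ENNReal.ofReal c₂ * ∫⁻ z in O₂, ∫⁻ A in Metric.closedBall z ρ, F S A := by
    have h2 : ENNReal.ofReal c₂ * ENNReal.ofReal ((2 * ρ) ^ 2) = 1 := by
      rw [← ENNReal.ofReal_mul hc₂0.le, hc₂, one_div, inv_mul_cancel₀ (by positivity), ENNReal.ofReal_one]
    calc ∫⁻ A in O₁, F S A = ENNReal.ofReal c₂ * (ENNReal.ofReal ((2 * ρ) ^ 2) * ∫⁻ A in O₁, F S A) := by
          rw [← mul_assoc, h2, one_mul]
      _ ≤ _ := mul_le_mul' le_rfl a1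
  have b2 : ∀ j, ENNReal.ofReal c₂ * (∫⁻ z in O₂, g j z) ≤ ENNReal.ofReal (κ ^ 2) *
      ((∫⁻ A in O₃, F (Sj j) A) + ENNReal.ofReal (E * V * q * κ⁻¹ ^ n)) := by
    intro j
    refine (mul_le_mul' le_rfl (hgi j)).trans ?_
    rw [mul_add, mul_add, ← mul_assoc, ← ENNReal.ofReal_mul hc₂0.le, ← ENNReal.ofReal_mul hc₂0.le, ← ENNReal.ofReal_mul (by positivity : 0 ≤ κ ^ 2)]
    have e1 : c₂ * (2 * (κ * ρ)) ^ 2 = κ ^ 2 := by
      rw [hc₂]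
      field_simp
    have e2 : c₂ * (tl * V) = 1 / 4 * (E * V * q * κ⁻¹ ^ n) := by
      rw [hc₂, htl]
      field_simp
      ring
    rw [e1, e2]
    refine add_le_add le_rfl (ENNReal.ofReal_le_ofReal ?_)
    have h2 : 1 ≤ κ ^ 2 := one_le_pow₀ hκ1
    have h3 : 0 ≤ E * V * q * κ⁻¹ ^ n := by positivity
    exact mul_le_mul_of_nonneg_right (by linarith) h3
  have hQ : (κ ^ 2) ^ (1 / 6 : ℝ) ≤ κ := by
    calc (κ ^ 2) ^ (1 / 6 : ℝ) ≤ (κ ^ 6) ^ (1 / 6 : ℝ) := rpow_le_rpow (by positivity) (pow_le_pow_right₀ hκ1 (by norm_num)) (by norm_num)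
      _ = κ := by
          rw [← rpow_natCast, ← rpow_mul (by positivity)]
          norm_num
  have hMe : 0 ≤ (M : ℝ) ^ (ε * (m : ℝ)) := rpow_nonneg hM0.le _
  have hCC : 0 ≤ C₃ * C₄ := by positivity
  have hfin : (∫⁻ A in O₁, F S A) ^ (1 / 6 : ℝ) ≤ ENNReal.ofReal (C₃ * C₄ * (M : ℝ) ^ (ε * (m : ℝ)) * κ) *
        ∑ j ∈ Finset.range (M ^ m), ((∫⁻ A in O₃, F (Sj j) A) + ENNReal.ofReal (E * V * q * κ⁻¹ ^ n)) ^ (1 / 6 : ℝ) := by
    calc (∫⁻ A in O₁, F S A) ^ (1 / 6 : ℝ) ≤ (ENNReal.ofReal c₂ * ∫⁻ z in O₂, ∫⁻ A in Metric.closedBall z ρ, F S A) ^ (1 / 6 : ℝ) :=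
          ENNReal.rpow_le_rpow b1 (by norm_num)
      _ = ENNReal.ofReal c₂ ^ (1 / 6 : ℝ) * (∫⁻ z in O₂, ∫⁻ A in Metric.closedBall z ρ, F S A) ^ (1 / 6 : ℝ) :=
          ENNReal.mul_rpow_of_nonneg _ _ (by norm_num)
      _ ≤ ENNReal.ofReal c₂ ^ (1 / 6 : ℝ) * (K' * ∑ j ∈ Finset.range (M ^ m), (∫⁻ z in O₂, g j z) ^ (1 / 6 : ℝ)) :=
          mul_le_mul' le_rfl hmink
      _ = K' * ∑ j ∈ Finset.range (M ^ m), (ENNReal.ofReal c₂ * ∫⁻ z in O₂, g j z) ^ (1 / 6 : ℝ) := by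
          simp only [ENNReal.mul_rpow_of_nonneg _ _ (by norm_num : (0 : ℝ) ≤ 1 / 6)]
          rw [← Finset.mul_sum]
          ring
      _ ≤ K' * ∑ j ∈ Finset.range (M ^ m), (ENNReal.ofReal (κ ^ 2) *
            ((∫⁻ A in O₃, F (Sj j) A) + ENNReal.ofReal (E * V * q * κ⁻¹ ^ n))) ^ (1 / 6 : ℝ) :=
          mul_le_mul' le_rfl (Finset.sum_le_sum fun j _ => ENNReal.rpow_le_rpow (b2 j) (by norm_num))
      _ = (K' * ENNReal.ofReal (κ ^ 2) ^ (1 / 6 : ℝ)) * ∑ j ∈ Finset.range (M ^ m),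
            ((∫⁻ A in O₃, F (Sj j) A) + ENNReal.ofReal (E * V * q * κ⁻¹ ^ n)) ^ (1 / 6 : ℝ) := by
          simp only [ENNReal.mul_rpow_of_nonneg _ _ (by norm_num : (0 : ℝ) ≤ 1 / 6)]
          rw [← Finset.mul_sum]
          ring
      _ ≤ _ := by
          refine mul_le_mul' ?_ le_rfl
          rw [hK', ENNReal.ofReal_rpow_of_nonneg (by positivity) (by norm_num), ← ENNReal.ofReal_mul (by positivity)]
          exact ENNReal.ofReal_le_ofReal (mul_le_mul_of_nonneg_left hQ (by positivity))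
  rw [hF, hSj] at hfin
  exact hfin

end Pool.Agent.Helper86.SA
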