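import Pool.Agent.Helper60.RT.Defs2
import Pool.Agent.Helper92.DT.R0
import Pool.Agent.Helper92.GC.T1
import Pool.Agent.Helper3.QL.P1

/-!
# Project RT, D4: one step of the iteration, from the blocks D1b, D2, D3 as hypotheses (as Helper3.AC.W1 and Helper3.AC.L6, without the angle)
-/

open MeasureTheory Real Set Filter Topology

set_option autoImplicit false

namespace Pool.Agent.Helper60.RT

open Pool.Agent.Helper22.AE
open Pool.Agent.Helper92.GC (dt tp Tq uu tt arc dd cub)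
open Pool.Agent.Helper92.DT (m12 IsMul12 m12_nonneg)
open Pool.Agent.Helper60.LT (Fr df vf)
open Pool.Agent.Helper60.QL (R3 nm pA xA sA TA Cone)
open Pool.Agent.Helper3.QL (avg_low avg_up)

/-! ## The statements of the blocks with their constants -/

/-- the statement of `boxdec12` with its constants -/
def Box86 (ε lam : ℝ) (M n : ℕ) (C E : ℝ) : Prop :=
  ∀ (m : ℕ) (H r κ t₀ : ℝ) (R₀ : R2) (a : ℤ × ℤ → ℂ) (S : Finset (ℤ × ℤ)), (∀ k, ‖a k‖ ≤ 1) → |t₀| ≤ 3 → 0 < H → 0 < r → 4 ≤ κ →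
    (∀ k ∈ S, H / lam ≤ uu 0 k ∧ uu 0 k ≤ lam * H ∧ |tt 0 k - t₀| ≤ 1) → C * (M : ℝ) ^ (3 * m) ≤ H * r →
    (∫ R in Metric.closedBall R₀ r, lf2 t₀ S a R) ^ (1 / 6 : ℝ) ≤ C * (M : ℝ) ^ (ε * (m : ℝ)) *
      ∑ j ∈ Finset.range (M ^ m), ((∫ R in Metric.closedBall R₀ (κ * r), lf2 t₀ (arc 0 S (M ^ m) j) a R) + E * r ^ 2 * (S.card : ℝ) ^ 12 * κ⁻¹ ^ n) ^ (1 / 6 : ℝ)

/-- the statement of `loc12` with its constants -/
def Loc86 (e : Fr) (B lam C w₀ : ℝ) : Prop :=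
  ∀ (X H w ρ σ t₀ : ℝ) (A A' : R2) (S : Finset (ℤ × ℤ)), 0 < X → 0 < H → 0 < w → w ≤ w₀ → |t₀| ≤ 3 → 0 < σ → σ ≤ |l1 e t₀ * l2 e t₀| →
    A ∈ OR e t₀ B X → A' ∈ OR e t₀ B X → |A.1 - A'.1| ≤ ρ → |A.2 - A'.2| ≤ ρ →
    (∀ k ∈ S, 0 < uu 0 k ∧ uu 0 k ≤ lam * H ∧ |tt 0 k - t₀| ≤ w) → ρ * H * w ^ 4 ≤ σ →
    qr e t₀ S A' ≤ C * lf2 t₀ S (fun k => ee (uu 0 k * pA (em e t₀ A) (tt 0 k - t₀))) (A' - A) ∧
    lf2 t₀ S (fun k => ee (uu 0 k * pA (em e t₀ A) (tt 0 k - t₀))) (A' - A) ≤ C * qr e t₀ S A'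

/-- the statement of `R_up` with its constant -/
def Up86 (e : Fr) (B C : ℝ) : Prop :=
  ∀ (X σ t : ℝ) (S : Finset (ℤ × ℤ)), 0 < X → |t| ≤ 3 → 0 < σ →
    σ ≤ |l1 e t * l2 e t| → (∀ k ∈ S, 0 < k.1) → RI e B X S ≤ ENNReal.ofReal (C / (X * σ)) * ∫⁻ A in OR e t B X, ENNReal.ofReal (qr e t S A)

/-- the statement of `R_lo` with its constant -/
def Lo86 (e : Fr) (B Λ C : ℝ) : Prop :=
  ∀ (X σ t : ℝ) (S : Finset (ℤ × ℤ)), 0 < X → |t| ≤ 3 → 0 < σ →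
    σ ≤ |l1 e t * l2 e t| → |l1 e t * l2 e t| ≤ Λ * σ → (∀ k ∈ S, 0 < k.1) →
      ∫⁻ A in OR e t B X, ENNReal.ofReal (qr e t S A) ≤ ENNReal.ofReal (C * X * σ) * RI e B X S

/-- the statement of `OR_props` with its constants -/
def Pro86 (e : Fr) (B C c : ℝ) : Prop :=
  ∀ (X σ t : ℝ), 0 < X → |t| ≤ 3 → 0 < σ →
    σ ≤ |l1 e t * l2 e t| → MeasurableSet (OR e t B X) ∧ volume (OR e t B X) ≤ ENNReal.ofReal (C * X ^ 2) ∧
      ∀ A ∈ OR e t B X, Metric.closedBall A (c * σ * X) ⊆ OR e t (2 * B) X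

/-! ## Tools -/

/-- Minkowski's inequality for `L^6` and finite sums, `lintegral` form -/
private theorem mink86 {α ι : Type} [MeasurableSpace α] (μ : Measure α) (s : Finset ι) (g : ι → α → ENNReal)
    (hg : ∀ j ∈ s, Measurable (g j)) :
    (∫⁻ z, (∑ j ∈ s, (g j z) ^ (1 / 6 : ℝ)) ^ (6 : ℝ) ∂μ) ^ (1 / 6 : ℝ) ≤ ∑ j ∈ s, (∫⁻ z, g j z ∂μ) ^ (1 / 6 : ℝ) := by
  classical
  induction s using Finset.induction_on with
  | empty =>
    simp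
  | insert i s hi ih =>
    have hs : ∀ j ∈ s, Measurable (g j) := fun j hj => hg j (Finset.mem_insert_of_mem hj)
    have hi' : Measurable (g i) := hg i (Finset.mem_insert_self i s)
    have h1 := ENNReal.lintegral_Lp_add_le (μ := μ) (p := 6) (f := fun z => (g i z) ^ (1 / 6 : ℝ))
      (g := fun z => ∑ j ∈ s, (g j z) ^ (1 / 6 : ℝ)) (hi'.pow_const _).aemeasurable
      (Finset.measurable_fun_sum s fun j hj => (hs j hj).pow_const _).aemeasurable (by norm_num)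
    have h2 : ∀ z, ((g i z) ^ (1 / 6 : ℝ)) ^ (6 : ℝ) = g i z := by
      intro z
      rw [← ENNReal.rpow_mul]
      norm_num
    rw [Finset.sum_insert hi]
    simp only [Finset.sum_insert hi]
    refine (le_of_eq ?_).trans (h1.trans (add_le_add ?_ (ih hs)))
    · simp only [Pi.add_apply]
    · simp only [h2]
      exact le_rfl

/-- `m12` is a continuous function of the coefficients -/
private theorem m12_ct86 {X : Type} [TopologicalSpace X] (S : Finset (ℤ × ℤ)) (a : X → ℤ × ℤ → ℂ)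
    (h : ∀ k ∈ S, Continuous (fun x => a x k)) : Continuous (fun x => m12 S (a x)) := by
  simp only [Pool.Agent.Helper92.DT.m12_eq]
  have hc : ∀ l, Continuous (fun x => cub S (a x) l) := by
    intro l
    unfold cub
    refine continuous_finsetSum _ fun k hk => ?_
    rw [Finset.mem_filter, Finset.mem_product, Finset.mem_product] at hk
    obtain ⟨⟨h2, h3, h4⟩, _⟩ := hk
    exact ((h _ h2).mul (h _ h3)).mul (h _ h4)
  refine continuous_finsetSum _ fun l _ => Continuous.pow (Continuous.norm ?_) 2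
  unfold Pool.Agent.Helper92.DT.six
  refine continuous_finsetSum _ fun k _ => ?_
  exact (hc _).mul (hc _)

private theorem qr_meas86 (e : Fr) (t₀ : ℝ) (S : Finset (ℤ × ℤ)) : Measurable (qr e t₀ S) := by
  have h1 : Continuous (fun b : ℤ × ℤ → ℂ => m12 S b) := m12_ct86 S (fun b : ℤ × ℤ → ℂ => b) fun k _ => continuous_apply k
  unfold qr
  refine h1.measurable.comp (measurable_pi_iff.2 fun k => ee_cont.measurable.comp ?_)
  unfold em A4 pA TA xA sA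
  fun_prop

private theorem lf2_ct86 (t₀ : ℝ) (S : Finset (ℤ × ℤ)) (a : ℤ × ℤ → ℂ) : Continuous (lf2 t₀ S a) := by
  unfold lf2
  refine m12_ct86 S _ fun k _ => continuous_const.mul (ee_cont.comp ?_)
  unfold ln2
  fun_prop

private theorem lf2_nn86 (t₀ : ℝ) (S : Finset (ℤ × ℤ)) (a : ℤ × ℤ → ℂ) (R : R2) : 0 ≤ lf2 t₀ S a R := m12_nonneg _ _

/-- the Bochner integral of the linear family as a lower integral around `z` -/
private theorem lf2_int86 (t₀ : ℝ) (S : Finset (ℤ × ℤ)) (a : ℤ × ℤ → ℂ) (z : R2) (r : ℝ) :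
    ENNReal.ofReal (∫ R in Metric.closedBall (0 : R2) r, lf2 t₀ S a R) = ∫⁻ A in Metric.closedBall z r, ENNReal.ofReal (lf2 t₀ S a (A - z)) := by
  rw [ofReal_integral_eq_lintegral_ofReal ((lf2_ct86 t₀ S a).continuousOn.integrableOn_compact (isCompact_closedBall _ _))
    (Eventually.of_forall fun R => lf2_nn86 t₀ S a R)]
  rw [← lintegral_indicator measurableSet_closedBall, ← lintegral_indicator measurableSet_closedBall]
  have : (volume : Measure R2).IsAddLeftInvariant := by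
    rw [Measure.volume_eq_prod]
    infer_instance
  rw [← lintegral_sub_right_eq_self _ z]
  refine lintegral_congr fun A => ?_
  by_cases h : A ∈ Metric.closedBall z r
  · have h' : A - z ∈ Metric.closedBall (0 : R2) r := by
      rw [mem_closedBall_zero_iff, ← dist_eq_norm]
      exact h
    rw [indicator_of_mem h, indicator_of_mem h']
  · have h' : A - z ∉ Metric.closedBall (0 : R2) r := by
      rw [mem_closedBall_zero_iff, ← dist_eq_norm]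
      exact h
    rw [indicator_of_notMem h, indicator_of_notMem h']

/-- balls of `ℝ²` are squares -/
private theorem ball86 (A z : R2) (Y : ℝ) : A ∈ Metric.closedBall z Y ↔ |A.1 - z.1| ≤ Y ∧ |A.2 - z.2| ≤ Y := by
  rw [Metric.mem_closedBall, Prod.dist_eq, Real.dist_eq, Real.dist_eq, max_le_iff]

private theorem vol86 (z : R2) {Y : ℝ} (hY : 0 ≤ Y) : volume (Metric.closedBall z Y) = ENNReal.ofReal ((2 * Y) ^ 2) := by
  have h1 : Metric.closedBall z Y = Icc (z.1 - Y) (z.1 + Y) ×ˢ Icc (z.2 - Y) (z.2 + Y) := by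
    ext A
    rw [ball86, mem_prod, mem_Icc, mem_Icc, abs_le, abs_le]
    constructor
    · rintro ⟨⟨h1, h2⟩, h3, h4⟩
      refine ⟨⟨by linarith, by linarith⟩, by linarith, by linarith⟩
    · rintro ⟨⟨h1, h2⟩, h3, h4⟩
      refine ⟨⟨by linarith, by linarith⟩, by linarith, by linarith⟩
  have h : ∀ x : ℝ, x + Y - (x - Y) = 2 * Y := fun x => by ring
  rw [h1, Measure.volume_eq_prod, Measure.prod_prod, Real.volume_Icc, Real.volume_Icc, h, h, ← ENNReal.ofReal_mul (by linarith)]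
  congr 1
  ring

private theorem meas_ball86 {F : R2 → ENNReal} (hF : Measurable F) (r : ℝ) :
    Measurable (fun z : R2 => ∫⁻ A in Metric.closedBall z r, F A) := by
  have hR : MeasurableSet {p : R2 × R2 | dist p.2 p.1 ≤ r} :=
    measurableSet_le (measurable_snd.dist measurable_fst) measurable_const
  have hm : Measurable (fun p : R2 × R2 => {p : R2 × R2 | dist p.2 p.1 ≤ r}.indicator (fun p => F p.2) p) :=
    (hF.comp measurable_snd).indicator hR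
  have h1 : (fun z : R2 => ∫⁻ A in Metric.closedBall z r, F A) =
      fun z => ∫⁻ A, {p : R2 × R2 | dist p.2 p.1 ≤ r}.indicator (fun p => F p.2) (z, A) := by
    funext z
    rw [← lintegral_indicator measurableSet_closedBall]
    refine lintegral_congr fun A => ?_
    by_cases h : dist A z ≤ r
    · rw [indicator_of_mem (by exact h), indicator_of_mem (by exact h)]
    · rw [indicator_of_notMem (by exact h), indicator_of_notMem (by exact h)]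
  rw [h1]
  exact hm.lintegral_prod_right'

private theorem RI_empty86 (e : Fr) (B X : ℝ) : RI e B X ∅ = 0 := by
  unfold RI mr
  have h1 : ∀ a : ℤ × ℤ → ℂ, m12 ∅ a = 0 := by
    intro a
    unfold m12 tp
    simp
  simp only [h1, ENNReal.ofReal_zero, lintegral_zero]

/-- the slopes of a sector -/
private theorem arc_slope86 {S : Finset (ℤ × ℤ)} {N j : ℕ} (hN : 0 < N) {k : ℤ × ℤ} (hk : k ∈ arc 0 S N j) (h2 : |tt 0 k| ≤ 2) :
    |tt 0 k - (12 * ((j : ℝ) + 1 / 2) / N - 6)| ≤ 6 / N := by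
  have hN0 : (0 : ℝ) < N := by exact_mod_cast hN
  unfold arc at hk
  have h := (Finset.mem_filter.1 hk).2
  have hpos : 0 ≤ (N : ℝ) * ((tt 0 k + 6) / 12) := by
    have := (abs_le.1 h2).1
    refine mul_nonneg hN0.le ?_
    linarith
  have h1 := Nat.floor_le hpos
  have h3 := Nat.lt_floor_add_one ((N : ℝ) * ((tt 0 k + 6) / 12))
  rw [h] at h1 h3
  have e1 : (j : ℝ) * 12 / N ≤ tt 0 k + 6 := by
    rw [div_le_iff₀ hN0]
    linarith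
  have e2 : tt 0 k + 6 ≤ ((j : ℝ) + 1) * 12 / N := by
    rw [le_div_iff₀ hN0]
    linarith
  have e3 : 12 * ((j : ℝ) + 1 / 2) / N = (j : ℝ) * 12 / N + 6 / N := by ring
  have e4 : ((j : ℝ) + 1) * 12 / N = (j : ℝ) * 12 / N + 6 / N + 6 / N := by ring
  rw [abs_le]
  constructor
  · linarith
  · linarith

/-! ## The window -/

private theorem win86 {e : Fr} {ε lam B C₃ w₀ C₄ E : ℝ} {M n : ℕ} (hC₃ : 1 ≤ C₃) (hC₄ : 1 ≤ C₄) (hw₀1 : w₀ ≤ 1)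
    (hloc : Loc86 e B lam C₃ w₀) (hbox : Box86 ε lam M n C₄ E) (hE : 1 ≤ E) (hl : 1 ≤ lam)
    (m : ℕ) (X H r κ w σ t₀ : ℝ) (z : R2) (S : Finset (ℤ × ℤ)) (hX : 0 < X) (hH : 0 < H) (hr : 0 < r) (hκ : 4 ≤ κ)
    (hw : 0 < w) (hww : w ≤ w₀) (ht₀ : |t₀| ≤ 3) (hσ : 0 < σ) (hσ1 : σ ≤ |l1 e t₀ * l2 e t₀|)
    (hball : Metric.closedBall z (κ * r) ⊆ OR e t₀ B X) (hS : ∀ k ∈ S, H / lam ≤ uu 0 k ∧ uu 0 k ≤ lam * H ∧ |tt 0 k - t₀| ≤ w)
    (hcond : κ * r * H * w ^ 4 ≤ σ) (hM4 : C₃ * C₄ * (M : ℝ) ^ (3 * m) ≤ H * r) :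
      (∫⁻ A in Metric.closedBall z r, ENNReal.ofReal (qr e t₀ S A)) ^ (1 / 6 : ℝ) ≤ ENNReal.ofReal (C₃ * C₄ * (M : ℝ) ^ (ε * (m : ℝ))) *
        ∑ j ∈ Finset.range (M ^ m), ((∫⁻ A in Metric.closedBall z (κ * r), ENNReal.ofReal (qr e t₀ (arc 0 S (M ^ m) j) A)) +
          ENNReal.ofReal (E * r ^ 2 * (S.card : ℝ) ^ 12 * κ⁻¹ ^ n)) ^ (1 / 6 : ℝ) := by
  have hκ0 : 0 < κ := by linarith
  have hC₃0 : 0 < C₃ := by linarith
  have hC₄0 : 0 < C₄ := by linarith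
  have hrκ : r ≤ κ * r := le_mul_of_one_le_left hr.le (by linarith)
  have hz : z ∈ OR e t₀ B X := hball (Metric.mem_closedBall_self (by positivity))
  obtain ⟨a, ha⟩ : ∃ a : ℤ × ℤ → ℂ, a = fun k => ee (uu 0 k * pA (em e t₀ z) (tt 0 k - t₀)) := ⟨_, rfl⟩
  have ha1 : ∀ k, ‖a k‖ ≤ 1 := by
    intro k
    rw [ha]
    exact (ee_norm _).le
  -- comparison with the linear family on the big ball
  have hcmp : ∀ S' ⊆ S, ∀ A ∈ Metric.closedBall z (κ * r), qr e t₀ S' A ≤ C₃ * lf2 t₀ S' a (A - z) ∧ lf2 t₀ S' a (A - z) ≤ C₃ * qr e t₀ S' A := by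
    intro S' hS' A hA
    have hA1 := (ball86 A z (κ * r)).1 hA
    rw [ha]
    refine hloc X H w (κ * r) σ t₀ z A S' hX hH hw hww ht₀ hσ hσ1 hz (hball hA) ?_ ?_ ?_ hcond
    · rw [abs_sub_comm]
      exact hA1.1
    · rw [abs_sub_comm]
      exact hA1.2
    · intro k hk
      obtain ⟨h1, h2, h3⟩ := hS k (hS' hk)
      refine ⟨lt_of_lt_of_le (by positivity) h1, h2, h3⟩
  have hlin : ∀ (S' : Finset (ℤ × ℤ)) (ρ : ℝ), 0 ≤ ∫ R in Metric.closedBall (0 : R2) ρ, lf2 t₀ S' a R :=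
    fun S' ρ => integral_nonneg fun R => lf2_nn86 t₀ S' a R
  obtain ⟨tl, htl⟩ : ∃ tl : ℝ, tl = E * r ^ 2 * (S.card : ℝ) ^ 12 * κ⁻¹ ^ n := ⟨_, rfl⟩
  have htl0 : 0 ≤ tl := by rw [htl]; positivity
  -- the three steps
  have s1 : ∫⁻ A in Metric.closedBall z r, ENNReal.ofReal (qr e t₀ S A) ≤ ENNReal.ofReal (C₃ * ∫ R in Metric.closedBall (0 : R2) r, lf2 t₀ S a R) := by
    rw [ENNReal.ofReal_mul hC₃0.le, lf2_int86 t₀ S a z r, ← lintegral_const_mul' _ _ ENNReal.ofReal_ne_top]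
    refine setLIntegral_mono' measurableSet_closedBall fun A hA => ?_
    rw [← ENNReal.ofReal_mul hC₃0.le]
    exact ENNReal.ofReal_le_ofReal (hcmp S (Finset.Subset.refl S) A (Metric.closedBall_subset_closedBall hrκ hA)).1
  have s2 := hbox m H r κ t₀ 0 a S ha1 ht₀ hH hr hκ (fun k hk => ⟨(hS k hk).1, (hS k hk).2.1, (hS k hk).2.2.trans (hww.trans hw₀1)⟩)
    (le_trans (by
      have : 0 ≤ C₄ * (M : ℝ) ^ (3 * m) := by positivity
      calc C₄ * (M : ℝ) ^ (3 * m) ≤ C₃ * (C₄ * (M : ℝ) ^ (3 * m)) := le_mul_of_one_le_left this hC₃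
        _ = C₃ * C₄ * (M : ℝ) ^ (3 * m) := by ring) hM4)
  rw [← htl] at s2
  have s3 : ∀ j, ENNReal.ofReal (∫ R in Metric.closedBall (0 : R2) (κ * r), lf2 t₀ (arc 0 S (M ^ m) j) a R) ≤
      ENNReal.ofReal C₃ * ∫⁻ A in Metric.closedBall z (κ * r), ENNReal.ofReal (qr e t₀ (arc 0 S (M ^ m) j) A) := by
    intro j
    rw [lf2_int86 t₀ _ a z (κ * r), ← lintegral_const_mul' _ _ ENNReal.ofReal_ne_top]
    refine setLIntegral_mono' measurableSet_closedBall fun A hA => ?_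
    rw [← ENNReal.ofReal_mul hC₃0.le]
    refine ENNReal.ofReal_le_ofReal (hcmp _ ?_ A hA).2
    unfold arc
    exact Finset.filter_subset _ _
  have hC10 : C₃ ^ (1 / 6 : ℝ) * C₃ ^ (1 / 6 : ℝ) ≤ C₃ := by
    rw [← rpow_add hC₃0]
    calc C₃ ^ (1 / 6 + 1 / 6 : ℝ) ≤ C₃ ^ (1 : ℝ) := rpow_le_rpow_of_exponent_le hC₃ (by norm_num)
      _ = C₃ := rpow_one _
  have hterm : ∀ j, ENNReal.ofReal (((∫ R in Metric.closedBall (0 : R2) (κ * r), lf2 t₀ (arc 0 S (M ^ m) j) a R) + tl) ^ (1 / 6 : ℝ)) ≤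
      ENNReal.ofReal (C₃ ^ (1 / 6 : ℝ)) * ((∫⁻ A in Metric.closedBall z (κ * r), ENNReal.ofReal (qr e t₀ (arc 0 S (M ^ m) j) A)) +
          ENNReal.ofReal tl) ^ (1 / 6 : ℝ) := by
    intro j
    rw [← ENNReal.ofReal_rpow_of_nonneg (add_nonneg (hlin _ _) htl0) (by norm_num), ← ENNReal.ofReal_rpow_of_nonneg hC₃0.le (by norm_num),
      ← ENNReal.mul_rpow_of_nonneg _ _ (by norm_num : (0 : ℝ) ≤ 1 / 6)]
    refine ENNReal.rpow_le_rpow ?_ (by norm_num)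
    rw [ENNReal.ofReal_add (hlin _ _) htl0, mul_add]
    refine add_le_add (s3 j) ?_
    have h1 : (1 : ENNReal) ≤ ENNReal.ofReal C₃ := by
      rw [← ENNReal.ofReal_one]
      exact ENNReal.ofReal_le_ofReal hC₃
    exact le_mul_of_one_le_left' h1
  have hsum0 : ∀ j, 0 ≤ ((∫ R in Metric.closedBall (0 : R2) (κ * r), lf2 t₀ (arc 0 S (M ^ m) j) a R) + tl) ^ (1 / 6 : ℝ) :=
    fun j => rpow_nonneg (add_nonneg (hlin _ _) htl0) _
  have hMm : 0 ≤ C₄ * (M : ℝ) ^ (ε * (m : ℝ)) := by positivity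
  calc (∫⁻ A in Metric.closedBall z r, ENNReal.ofReal (qr e t₀ S A)) ^ (1 / 6 : ℝ)
      ≤ (ENNReal.ofReal (C₃ * ∫ R in Metric.closedBall (0 : R2) r, lf2 t₀ S a R)) ^ (1 / 6 : ℝ) := ENNReal.rpow_le_rpow s1 (by norm_num)
    _ = ENNReal.ofReal (C₃ ^ (1 / 6 : ℝ) * (∫ R in Metric.closedBall (0 : R2) r, lf2 t₀ S a R) ^ (1 / 6 : ℝ)) := by
        rw [ENNReal.ofReal_rpow_of_nonneg (mul_nonneg hC₃0.le (hlin _ _)) (by norm_num), mul_rpow hC₃0.le (hlin _ _)]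
    _ ≤ ENNReal.ofReal (C₃ ^ (1 / 6 : ℝ) * (C₄ * (M : ℝ) ^ (ε * (m : ℝ)) *
          ∑ j ∈ Finset.range (M ^ m), ((∫ R in Metric.closedBall (0 : R2) (κ * r), lf2 t₀ (arc 0 S (M ^ m) j) a R) + tl) ^ (1 / 6 : ℝ))) :=
        ENNReal.ofReal_le_ofReal (mul_le_mul_of_nonneg_left s2 (by positivity))
    _ = ENNReal.ofReal (C₃ ^ (1 / 6 : ℝ) * (C₄ * (M : ℝ) ^ (ε * (m : ℝ)))) *
          ∑ j ∈ Finset.range (M ^ m), ENNReal.ofReal (((∫ R in Metric.closedBall (0 : R2) (κ * r), lf2 t₀ (arc 0 S (M ^ m) j) a R) + tl) ^ (1 / 6 : ℝ)) := by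
        rw [← mul_assoc, ENNReal.ofReal_mul (by positivity), ENNReal.ofReal_sum_of_nonneg fun j _ => hsum0 j]
    _ ≤ ENNReal.ofReal (C₃ ^ (1 / 6 : ℝ) * (C₄ * (M : ℝ) ^ (ε * (m : ℝ)))) *
          ∑ j ∈ Finset.range (M ^ m), ENNReal.ofReal (C₃ ^ (1 / 6 : ℝ)) * ((∫⁻ A in Metric.closedBall z (κ * r), ENNReal.ofReal (qr e t₀ (arc 0 S (M ^ m) j) A)) +
          ENNReal.ofReal tl) ^ (1 / 6 : ℝ) := by
        refine mul_le_mul' le_rfl (Finset.sum_le_sum fun j _ => hterm j)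
    _ = ENNReal.ofReal ((C₃ ^ (1 / 6 : ℝ) * C₃ ^ (1 / 6 : ℝ)) * (C₄ * (M : ℝ) ^ (ε * (m : ℝ)))) *
          ∑ j ∈ Finset.range (M ^ m), ((∫⁻ A in Metric.closedBall z (κ * r), ENNReal.ofReal (qr e t₀ (arc 0 S (M ^ m) j) A)) +
          ENNReal.ofReal tl) ^ (1 / 6 : ℝ) := by
        rw [← Finset.mul_sum, ← mul_assoc, ← ENNReal.ofReal_mul (by positivity)]
        congr 2
        ring
    _ ≤ _ := by
        refine mul_le_mul' (ENNReal.ofReal_le_ofReal ?_) (by rw [← htl])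
        calc (C₃ ^ (1 / 6 : ℝ) * C₃ ^ (1 / 6 : ℝ)) * (C₄ * (M : ℝ) ^ (ε * (m : ℝ))) ≤ C₃ * (C₄ * (M : ℝ) ^ (ε * (m : ℝ))) :=
              mul_le_mul_of_nonneg_right hC10 hMm
          _ = C₃ * C₄ * (M : ℝ) ^ (ε * (m : ℝ)) := by ring

/-! ## The step -/

theorem stepR_of86 {e : Fr} {ε lam Λ B : ℝ} {M n : ℕ} (hl : 1 ≤ lam) (hB : 1 ≤ B) (hM : 2 ≤ M)
    {C₄ E₀ : ℝ} (hC₄ : 1 ≤ C₄) (hE₀ : 1 ≤ E₀) (hbox : Box86 ε lam M n C₄ E₀)
    {C₃ w₀ : ℝ} (hC₃ : 1 ≤ C₃) (hw₀ : 0 < w₀) (hw₀1 : w₀ ≤ 1) (hloc : Loc86 e (4 * B) lam C₃ w₀)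
    {C₅ : ℝ} (hC₅ : 1 ≤ C₅) (hup : Up86 e B C₅)
    {C₆ : ℝ} (hC₆ : 1 ≤ C₆) (hlo : Lo86 e (4 * B) Λ C₆)
    {Ca ca : ℝ} (hca : 0 < ca) (hpa : Pro86 e B Ca ca)
    {Cb cb : ℝ} (hCb : 1 ≤ Cb) (hcb : 0 < cb) (hpb : Pro86 e (2 * B) Cb cb)
    {Cc cc : ℝ} (hpc : Pro86 e (4 * B) Cc cc) :
    ∃ C B' E : ℝ, ∃ m₁ : ℕ, 1 ≤ C ∧ B ≤ B' ∧ 1 ≤ E ∧ StepR e ε lam Λ M n B C B' E m₁ := by
  obtain ⟨K, hKd⟩ : ∃ K : ℝ, K = C₃ * C₄ := ⟨_, rfl⟩
  have hK : 1 ≤ K := by rw [hKd]; exact one_le_mul_of_one_le_of_one_le hC₃ hC₄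
  have hM1 : (1 : ℝ) < M := by
    have : 1 < M := by omega
    exact_mod_cast this
  have hM0 : (0 : ℝ) < M := by linarith
  obtain ⟨m₀, hm₀⟩ := pow_unbounded_of_one_lt (12 / w₀) hM1
  have hC₅0 : 0 < C₅ := by linarith
  have hC₆0 : 0 < C₆ := by linarith
  have hK0 : 0 < K := by linarith
  have hE0 : 0 < E₀ := by linarith
  have hCb0 : 0 < Cb := by linarith
  obtain ⟨C, hC⟩ : ∃ C, C = 4 + K / ca + K / cb + 12 ^ 4 * K + K * (C₅ * C₆) := ⟨_, rfl⟩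
  have hCa : 4 ≤ C := by
    have : 0 ≤ K / ca + K / cb + 12 ^ 4 * K + K * (C₅ * C₆) := by positivity
    linarith
  have hCa1 : K / ca ≤ C := by
    have : 0 ≤ K / cb + 12 ^ 4 * K + K * (C₅ * C₆) := by positivity
    linarith
  have hCb1 : K / cb ≤ C := by
    have : 0 ≤ K / ca + 12 ^ 4 * K + K * (C₅ * C₆) := by positivity
    linarith
  have hCc : 12 ^ 4 * K ≤ C := by
    have : 0 ≤ K / ca + K / cb + K * (C₅ * C₆) := by positivity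
    linarith
  have hCd : K * (C₅ * C₆) ≤ C := by
    have : 0 ≤ K / ca + K / cb + 12 ^ 4 * K := by positivity
    linarith
  refine ⟨C, 4 * B, E₀ * Cb, m₀, by linarith, by linarith, one_le_mul_of_one_le_of_one_le hE₀ hCb, ?_⟩
  intro m m' r X H κ σ S hm hmm hX hH hκ hcone hσ hgd hc1 hc2
  have hX0 : 0 < X := by linarith
  have hH0 : 0 < H := by linarith
  have hC0 : 0 < C := by linarith
  have hκ4 : 4 ≤ κ := hCa.trans hκ
  have hκ0 : 0 < κ := by linarith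
  have hκ1 : 1 ≤ κ := by linarith
  -- the sector
  obtain ⟨S', hS'⟩ : ∃ S', S' = arc 0 S (M ^ m) r := ⟨_, rfl⟩
  rw [← hS'] at hgd ⊢
  rcases S'.eq_empty_or_nonempty with hemp | hne
  · rw [hemp, RI_empty86, ENNReal.zero_rpow_of_pos (by norm_num)]
    exact bot_le
  have hsub : S' ⊆ S := by
    rw [hS']
    unfold arc
    exact Finset.filter_subset _ _
  have hMm : 0 < M ^ m := pow_pos (by omega) m
  have hMmR : (0 : ℝ) < (M : ℝ) ^ m := by positivity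
  obtain ⟨tc, htc⟩ : ∃ tc : ℝ, tc = 12 * ((r : ℝ) + 1 / 2) / ((M ^ m : ℕ) : ℝ) - 6 := ⟨_, rfl⟩
  obtain ⟨w, hw⟩ : ∃ w : ℝ, w = 12 / (M : ℝ) ^ m := ⟨_, rfl⟩
  have hcast : ((M ^ m : ℕ) : ℝ) = (M : ℝ) ^ m := by push_cast; rfl
  have hw0 : 0 < w := by rw [hw]; positivity
  have hww : w ≤ w₀ := by
    rw [hw, div_le_iff₀ hMmR]
    have h1 : (M : ℝ) ^ m₀ ≤ (M : ℝ) ^ m := pow_le_pow_right₀ hM1.le hm
    rw [div_lt_iff₀ hw₀] at hm₀
    calc (12 : ℝ) ≤ (M : ℝ) ^ m₀ * w₀ := hm₀.le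
      _ ≤ (M : ℝ) ^ m * w₀ := mul_le_mul_of_nonneg_right h1 hw₀.le
      _ = w₀ * (M : ℝ) ^ m := mul_comm _ _
  have hkpos : ∀ k ∈ S, (0 : ℝ) < k.1 := fun k hk => lt_of_lt_of_le (div_pos hH0 (by linarith)) (hcone k hk).1
  have huu : ∀ k : ℤ × ℤ, uu 0 k = (k.1 : ℝ) := by
    intro k
    unfold uu
    ring
  have htt : ∀ k ∈ S, |tt 0 k| ≤ 2 := by
    intro k hk
    have h1 := hkpos k hk
    unfold tt
    rw [huu, abs_div, abs_of_pos h1, div_le_iff₀ h1]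
    exact (hcone k hk).2.2
  have hsl : ∀ k ∈ S', |tt 0 k - tc| ≤ w / 2 := by
    intro k hk
    have e1 : w / 2 = 6 / ((M ^ m : ℕ) : ℝ) := by
      rw [hw, hcast]
      ring
    rw [htc, e1]
    rw [hS'] at hk
    exact arc_slope86 hMm hk (htt k (hsub (by rw [hS']; exact hk)))
  obtain ⟨k₀, hk₀⟩ := hne
  obtain ⟨t₀, ht₀⟩ : ∃ t₀ : ℝ, t₀ = tt 0 k₀ := ⟨_, rfl⟩
  have hslope : ∀ k ∈ S', |tt 0 k - t₀| ≤ w := by
    intro k hk
    have h1 := abs_le.1 (hsl k hk)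
    have h2 := abs_le.1 (hsl k₀ hk₀)
    rw [ht₀, abs_le]
    constructor
    · linarith
    · linarith
  have ht₀3 : |t₀| ≤ 3 := by
    rw [ht₀]
    linarith [htt k₀ (hsub hk₀)]
  obtain ⟨hg1, hg2⟩ := hgd k₀ hk₀
  rw [← ht₀] at hg1 hg2
  have hSw : ∀ k ∈ S', H / lam ≤ uu 0 k ∧ uu 0 k ≤ lam * H ∧ |tt 0 k - t₀| ≤ w := by
    intro k hk
    have h1 := hcone k (hsub hk)
    rw [huu]
    exact ⟨h1.1, h1.2.1, hslope k hk⟩
  have hposZ : ∀ S'' ⊆ S', ∀ k ∈ S'', 0 < k.1 := by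
    intro S'' hs k hk
    have := hkpos k (hsub (hs hk))
    exact_mod_cast this
  -- the regions
  obtain ⟨ma, -, na⟩ := hpa X σ t₀ hX0 ht₀3 hσ hg1
  obtain ⟨mb, vb, nb⟩ := hpb X σ t₀ hX0 ht₀3 hσ hg1
  obtain ⟨mc, -, -⟩ := hpc X σ t₀ hX0 ht₀3 hσ hg1
  have e4B : 2 * (2 * B) = 4 * B := by ring
  rw [e4B] at nb
  -- the radius
  obtain ⟨ρ, hρ⟩ : ∃ ρ : ℝ, ρ = K * (M : ℝ) ^ (3 * m') / H := ⟨_, rfl⟩
  have hρ0 : 0 < ρ := by rw [hρ]; positivity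
  have hρH : K * (M : ℝ) ^ (3 * m') = H * ρ := by rw [hρ]; field_simp
  have hP0 : 0 < κ * (M : ℝ) ^ (3 * m') := by positivity
  have hnear : ∀ c : ℝ, 0 < c → K / c ≤ C → κ * ρ ≤ c * σ * X := by
    intro c hc0 hc
    have h1 : K ≤ C * c := by
      rw [div_le_iff₀ hc0] at hc
      exact hc
    have h2 : κ * ρ = K * (κ * (M : ℝ) ^ (3 * m')) / H := by
      rw [hρ]
      ring
    rw [h2, div_le_iff₀ hH0]
    calc K * (κ * (M : ℝ) ^ (3 * m')) ≤ C * c * (κ * (M : ℝ) ^ (3 * m')) := mul_le_mul_of_nonneg_right h1 hP0.le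
      _ = c * (C * κ * (M : ℝ) ^ (3 * m')) := by ring
      _ ≤ c * (σ * (X * H)) := mul_le_mul_of_nonneg_left hc1 hc0.le
      _ = c * σ * X * H := by ring
  have hcond : κ * ρ * H * w ^ 4 ≤ σ := by
    have e : κ * ρ * H * w ^ 4 = (12 ^ 4 * K) * (κ * (M : ℝ) ^ (3 * m')) / (M : ℝ) ^ (4 * m) := by
      rw [hρ, hw, pow_mul' (M : ℝ) 4 m]
      field_simp
    rw [e, div_le_iff₀ (by positivity)]
    calc (12 ^ 4 * K) * (κ * (M : ℝ) ^ (3 * m')) ≤ C * (κ * (M : ℝ) ^ (3 * m')) := mul_le_mul_of_nonneg_right hCc hP0.le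
      _ = C * κ * (M : ℝ) ^ (3 * m') := by ring
      _ ≤ _ := hc2
  have hρκ : ρ ≤ κ * ρ := le_mul_of_one_le_left hρ0.le hκ1
  have hball2 : ∀ A ∈ OR e t₀ B X, Metric.closedBall A ρ ⊆ OR e t₀ (2 * B) X := fun A hA =>
    (Metric.closedBall_subset_closedBall (hρκ.trans (hnear ca hca hCa1))).trans (na A hA)
  have hball3 : ∀ z ∈ OR e t₀ (2 * B) X, Metric.closedBall z (κ * ρ) ⊆ OR e t₀ (4 * B) X := fun A hA =>
    (Metric.closedBall_subset_closedBall (hnear cb hcb hCb1)).trans (nb A hA)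
  -- the functions
  obtain ⟨F, hF⟩ : ∃ F : Finset (ℤ × ℤ) → R2 → ENNReal, F = fun S'' A => ENNReal.ofReal (qr e t₀ S'' A) := ⟨_, rfl⟩
  have hFm : ∀ S'', Measurable (F S'') := by
    intro S''
    rw [hF]
    exact (qr_meas86 e t₀ S'').ennreal_ofReal
  obtain ⟨Sj, hSj⟩ : ∃ Sj : ℕ → Finset (ℤ × ℤ), Sj = fun j => arc 0 S' (M ^ m') j := ⟨_, rfl⟩
  have hSjs : ∀ j, Sj j ⊆ S' := by
    intro j
    rw [hSj]
    unfold arc
    exact Finset.filter_subset _ _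
  obtain ⟨q1, hq1⟩ : ∃ q1 : ℝ, q1 = (S'.card : ℝ) ^ 12 := ⟨_, rfl⟩
  obtain ⟨q2, hq2⟩ : ∃ q2 : ℝ, q2 = (S.card : ℝ) ^ 12 := ⟨_, rfl⟩
  have hq10 : 0 ≤ q1 := by rw [hq1]; exact pow_nonneg (Nat.cast_nonneg _) 12
  have hq12 : q1 ≤ q2 := by
    rw [hq1, hq2]
    exact pow_le_pow_left₀ (Nat.cast_nonneg _) (by exact_mod_cast Finset.card_le_card hsub) 12
  have hq20 : 0 ≤ q2 := hq10.trans hq12
  obtain ⟨tl, htl⟩ : ∃ tl : ℝ, tl = E₀ * ρ ^ 2 * q1 * κ⁻¹ ^ n := ⟨_, rfl⟩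
  have htl0 : 0 ≤ tl := by rw [htl]; positivity
  rw [← hq2]
  have hV : ∀ (Y : ℝ), 0 ≤ Y → ∀ z : R2, volume (Metric.closedBall z Y) = ENNReal.ofReal ((2 * Y) ^ 2) :=
    fun Y hY z => vol86 z hY
  -- averaging
  have a1 : ENNReal.ofReal ((2 * ρ) ^ 2) * (∫⁻ A in OR e t₀ B X, F S' A) ≤ ∫⁻ z in OR e t₀ (2 * B) X, ∫⁻ A in Metric.closedBall z ρ, F S' A :=
    avg_low volume (hFm S') ma (hV ρ hρ0.le) hball2
  have a2 : ∀ j : ℕ, ∫⁻ z in OR e t₀ (2 * B) X, ∫⁻ A in Metric.closedBall z (κ * ρ), F (Sj j) A ≤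
      ENNReal.ofReal ((2 * (κ * ρ)) ^ 2) * ∫⁻ A in OR e t₀ (4 * B) X, F (Sj j) A :=
    fun j => avg_up volume (hFm _) mc (hV (κ * ρ) (by positivity)) hball3
  -- the window
  have hwz : ∀ z ∈ OR e t₀ (2 * B) X, (∫⁻ A in Metric.closedBall z ρ, F S' A) ^ (1 / 6 : ℝ) ≤ ENNReal.ofReal (K * (M : ℝ) ^ (ε * (m' : ℝ))) *
      ∑ j ∈ Finset.range (M ^ m'), ((∫⁻ A in Metric.closedBall z (κ * ρ), F (Sj j) A) + ENNReal.ofReal tl) ^ (1 / 6 : ℝ) := by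
    intro z hz
    have := win86 hC₃ hC₄ hw₀1 hloc hbox hE₀ hl m' X H ρ κ w σ t₀ z S' hX0 hH0 hρ0 hκ4 hw0 hww ht₀3 hσ hg1 (hball3 z hz) hSw hcond
      (by rw [← hKd]; exact hρH.le)
    rw [hF, hSj, htl, hq1, hKd]
    exact this
  obtain ⟨K', hK'⟩ : ∃ K' : ENNReal, K' = ENNReal.ofReal (K * (M : ℝ) ^ (ε * (m' : ℝ))) := ⟨_, rfl⟩
  rw [← hK'] at hwz
  obtain ⟨g, hg⟩ : ∃ g : ℕ → R2 → ENNReal, g = fun j z => (∫⁻ A in Metric.closedBall z (κ * ρ), F (Sj j) A) + ENNReal.ofReal tl := ⟨_, rfl⟩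
  have hgm : ∀ j, Measurable (g j) := by
    intro j
    rw [hg]
    exact (meas_ball86 (hFm (Sj j)) (κ * ρ)).add_const _
  have hmink : (∫⁻ z in OR e t₀ (2 * B) X, ∫⁻ A in Metric.closedBall z ρ, F S' A) ^ (1 / 6 : ℝ) ≤
      K' * ∑ j ∈ Finset.range (M ^ m'), (∫⁻ z in OR e t₀ (2 * B) X, g j z) ^ (1 / 6 : ℝ) := by
    have h3 : Measurable (fun z : R2 => (∑ j ∈ Finset.range (M ^ m'), (g j z) ^ (1 / 6 : ℝ)) ^ (6 : ℝ)) :=
      (Finset.measurable_fun_sum _ fun j _ => (hgm j).pow_const _).pow_const _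
    have h1 : ∫⁻ z in OR e t₀ (2 * B) X, ∫⁻ A in Metric.closedBall z ρ, F S' A ≤
        ∫⁻ z in OR e t₀ (2 * B) X, K' ^ (6 : ℝ) * (∑ j ∈ Finset.range (M ^ m'), (g j z) ^ (1 / 6 : ℝ)) ^ (6 : ℝ) := by
      refine setLIntegral_mono' mb fun z hz => ?_
      rw [← ENNReal.mul_rpow_of_nonneg _ _ (by norm_num : (0 : ℝ) ≤ 6)]
      have h2 := ENNReal.rpow_le_rpow (hwz z hz) (by norm_num : (0 : ℝ) ≤ 6)
      rw [← ENNReal.rpow_mul] at h2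
      norm_num at h2
      rw [hg]
      norm_num
      exact h2
    rw [lintegral_const_mul _ h3] at h1
    refine (ENNReal.rpow_le_rpow h1 (by norm_num : (0 : ℝ) ≤ 1 / 6)).trans ?_
    rw [ENNReal.mul_rpow_of_nonneg _ _ (by norm_num : (0 : ℝ) ≤ 1 / 6), ← ENNReal.rpow_mul]
    have e : (6 : ℝ) * (1 / 6) = 1 := by norm_num
    rw [e, ENNReal.rpow_one]
    exact mul_le_mul' le_rfl (mink86 _ _ g fun j _ => hgm j)
  -- the integrals of the g j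
  have hgi : ∀ j, ∫⁻ z in OR e t₀ (2 * B) X, g j z ≤ ENNReal.ofReal ((2 * (κ * ρ)) ^ 2) * (∫⁻ A in OR e t₀ (4 * B) X, F (Sj j) A) +
      ENNReal.ofReal (tl * (Cb * X ^ 2)) := by
    intro j
    rw [hg]
    change ∫⁻ z in OR e t₀ (2 * B) X, ((∫⁻ A in Metric.closedBall z (κ * ρ), F (Sj j) A) + ENNReal.ofReal tl) ≤ _
    rw [lintegral_add_right _ measurable_const, lintegral_const, Measure.restrict_apply MeasurableSet.univ, univ_inter]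
    refine add_le_add (a2 j) ?_
    rw [ENNReal.ofReal_mul htl0]
    exact mul_le_mul' le_rfl vb
  -- the constants
  obtain ⟨c₂, hc₂⟩ : ∃ c₂ : ℝ, c₂ = C₅ / (X * σ) / (2 * ρ) ^ 2 := ⟨_, rfl⟩
  have hc₂0 : 0 < c₂ := by rw [hc₂]; positivity
  have b1 : RI e B X S' ≤ ENNReal.ofReal c₂ * ∫⁻ z in OR e t₀ (2 * B) X, ∫⁻ A in Metric.closedBall z ρ, F S' A := by
    have h1 := hup X σ t₀ S' hX0 ht₀3 hσ hg1 (hposZ S' (Finset.Subset.refl _))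
    have h2 : ENNReal.ofReal (C₅ / (X * σ)) = ENNReal.ofReal c₂ * ENNReal.ofReal ((2 * ρ) ^ 2) := by
      rw [← ENNReal.ofReal_mul hc₂0.le, hc₂]
      congr 1
      field_simp
    rw [h2, mul_assoc] at h1
    refine h1.trans (mul_le_mul' le_rfl ?_)
    rw [hF] at a1 ⊢
    exact a1
  have b2 : ∀ j, ENNReal.ofReal c₂ * (∫⁻ z in OR e t₀ (2 * B) X, g j z) ≤ ENNReal.ofReal (C₅ * C₆ * κ ^ 2) *
      (RI e (4 * B) X (Sj j) + ENNReal.ofReal (E₀ * Cb * (X / σ) * q2 * κ⁻¹ ^ n)) := by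
    intro j
    refine (mul_le_mul' le_rfl (hgi j)).trans ?_
    rw [mul_add, mul_add, ← mul_assoc, ← ENNReal.ofReal_mul hc₂0.le, ← ENNReal.ofReal_mul hc₂0.le, ← ENNReal.ofReal_mul (by positivity : 0 ≤ C₅ * C₆ * κ ^ 2)]
    have e1 : c₂ * (2 * (κ * ρ)) ^ 2 = C₅ * κ ^ 2 / (X * σ) := by
      rw [hc₂]
      field_simp
    have e2 : c₂ * (tl * (Cb * X ^ 2)) = C₅ / 4 * (E₀ * Cb * (X / σ) * q1 * κ⁻¹ ^ n) := by
      rw [hc₂, htl]
      field_simp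
      ring
    refine add_le_add ?_ (ENNReal.ofReal_le_ofReal ?_)
    · rw [e1]
      have h1 := hlo X σ t₀ (Sj j) hX0 ht₀3 hσ hg1 hg2 (hposZ _ (hSjs j))
      have h2 : ENNReal.ofReal (C₅ * C₆ * κ ^ 2) = ENNReal.ofReal (C₅ * κ ^ 2 / (X * σ)) * ENNReal.ofReal (C₆ * X * σ) := by
        rw [← ENNReal.ofReal_mul (by positivity : 0 ≤ C₅ * κ ^ 2 / (X * σ))]
        congr 1
        field_simp
      rw [h2, mul_assoc]
      refine mul_le_mul' le_rfl ?_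
      rw [hF]
      exact h1
    · rw [e2]
      have h2 : 1 ≤ C₆ * κ ^ 2 := one_le_mul_of_one_le_of_one_le hC₆ (one_le_pow₀ hκ1)
      obtain ⟨q, hq⟩ : ∃ q, q = E₀ * Cb * (X / σ) * q2 * κ⁻¹ ^ n := ⟨_, rfl⟩
      have hq0 : 0 ≤ q := by rw [hq]; positivity
      rw [← hq]
      calc C₅ / 4 * (E₀ * Cb * (X / σ) * q1 * κ⁻¹ ^ n) ≤ C₅ / 4 * q := by
            rw [hq]
            refine mul_le_mul_of_nonneg_left ?_ (by positivity)
            refine mul_le_mul_of_nonneg_right ?_ (by positivity)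
            exact mul_le_mul_of_nonneg_left hq12 (by positivity)
        _ ≤ C₅ * q := mul_le_mul_of_nonneg_right (by linarith) hq0
        _ ≤ C₅ * ((C₆ * κ ^ 2) * q) := mul_le_mul_of_nonneg_left (le_mul_of_one_le_left hq0 h2) hC₅0.le
        _ = C₅ * C₆ * κ ^ 2 * q := by ring
  have hQ : (C₅ * C₆ * κ ^ 2) ^ (1 / 6 : ℝ) ≤ C₅ * C₆ * κ := by
    have h1 : 1 ≤ C₅ * C₆ := one_le_mul_of_one_le_of_one_le hC₅ hC₆
    have h2 : 1 ≤ C₅ * C₆ * κ := one_le_mul_of_one_le_of_one_le h1 hκ1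
    have h3 : C₅ * C₆ * κ ^ 2 ≤ (C₅ * C₆ * κ) ^ 6 := by
      calc C₅ * C₆ * κ ^ 2 ≤ (C₅ * C₆) ^ 2 * κ ^ 2 := by
            refine mul_le_mul_of_nonneg_right ?_ (by positivity)
            exact le_self_pow₀ h1 (by norm_num)
        _ = (C₅ * C₆ * κ) ^ 2 := by ring
        _ ≤ (C₅ * C₆ * κ) ^ 6 := pow_le_pow_right₀ h2 (by norm_num)
    calc (C₅ * C₆ * κ ^ 2) ^ (1 / 6 : ℝ) ≤ ((C₅ * C₆ * κ) ^ 6) ^ (1 / 6 : ℝ) := rpow_le_rpow (by positivity) h3 (by norm_num)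
      _ = C₅ * C₆ * κ := by
          rw [← rpow_natCast, ← rpow_mul (by positivity)]
          norm_num
  have hMe : 0 ≤ (M : ℝ) ^ (ε * (m' : ℝ)) := rpow_nonneg hM0.le _
  calc RI e B X S' ^ (1 / 6 : ℝ) ≤ (ENNReal.ofReal c₂ * ∫⁻ z in OR e t₀ (2 * B) X, ∫⁻ A in Metric.closedBall z ρ, F S' A) ^ (1 / 6 : ℝ) :=
        ENNReal.rpow_le_rpow b1 (by norm_num)
    _ = ENNReal.ofReal c₂ ^ (1 / 6 : ℝ) * (∫⁻ z in OR e t₀ (2 * B) X, ∫⁻ A in Metric.closedBall z ρ, F S' A) ^ (1 / 6 : ℝ) :=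
        ENNReal.mul_rpow_of_nonneg _ _ (by norm_num)
    _ ≤ ENNReal.ofReal c₂ ^ (1 / 6 : ℝ) * (K' * ∑ j ∈ Finset.range (M ^ m'), (∫⁻ z in OR e t₀ (2 * B) X, g j z) ^ (1 / 6 : ℝ)) :=
        mul_le_mul' le_rfl hmink
    _ = K' * ∑ j ∈ Finset.range (M ^ m'), (ENNReal.ofReal c₂ * ∫⁻ z in OR e t₀ (2 * B) X, g j z) ^ (1 / 6 : ℝ) := by
        simp only [ENNReal.mul_rpow_of_nonneg _ _ (by norm_num : (0 : ℝ) ≤ 1 / 6)]
        rw [← Finset.mul_sum]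
        ring
    _ ≤ K' * ∑ j ∈ Finset.range (M ^ m'), (ENNReal.ofReal (C₅ * C₆ * κ ^ 2) *
          (RI e (4 * B) X (Sj j) + ENNReal.ofReal (E₀ * Cb * (X / σ) * q2 * κ⁻¹ ^ n))) ^ (1 / 6 : ℝ) :=
        mul_le_mul' le_rfl (Finset.sum_le_sum fun j _ => ENNReal.rpow_le_rpow (b2 j) (by norm_num))
    _ = (K' * ENNReal.ofReal (C₅ * C₆ * κ ^ 2) ^ (1 / 6 : ℝ)) * ∑ j ∈ Finset.range (M ^ m'),
          (RI e (4 * B) X (Sj j) + ENNReal.ofReal (E₀ * Cb * (X / σ) * q2 * κ⁻¹ ^ n)) ^ (1 / 6 : ℝ) := by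
        simp only [ENNReal.mul_rpow_of_nonneg _ _ (by norm_num : (0 : ℝ) ≤ 1 / 6)]
        rw [← Finset.mul_sum]
        ring
    _ ≤ _ := by
        rw [hSj]
        refine mul_le_mul' ?_ le_rfl
        rw [hK', ENNReal.ofReal_rpow_of_nonneg (by positivity) (by norm_num), ← ENNReal.ofReal_mul (by positivity)]
        refine ENNReal.ofReal_le_ofReal ?_
        calc K * (M : ℝ) ^ (ε * (m' : ℝ)) * (C₅ * C₆ * κ ^ 2) ^ (1 / 6 : ℝ) ≤ K * (M : ℝ) ^ (ε * (m' : ℝ)) * (C₅ * C₆ * κ) :=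
              mul_le_mul_of_nonneg_left hQ (by positivity)
          _ = (K * (C₅ * C₆)) * (κ * (M : ℝ) ^ (ε * (m' : ℝ))) := by ring
          _ ≤ C * (κ * (M : ℝ) ^ (ε * (m' : ℝ))) := mul_le_mul_of_nonneg_right hCd (by positivity)
          _ = C * κ * (M : ℝ) ^ (ε * (m' : ℝ)) := by ring

end Pool.Agent.Helper60.RT
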